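import Mathlib.SetTheory.Cardinal.Order
import Mathlib.RingTheory.Algebraic.Defs
import Mathlib.FieldTheory.IntermediateField.Adjoin.Defs
import Mathlib.Analysis.Normed.Field.Basic
import Mathlib.Order.CompletePartialOrder

set_option autoImplicit false

open Cardinal

namespace Pool.Agent.MP_769310_ag

universe u v w

/-- The closure in `Ω` of the algebraic closure of `k(S)` inside `Ω`. -/
def taClosure (k : Type u) {Ω : Type w} [Field k] [NormedField Ω] [Algebra k Ω] (S : Set Ω) :
    Set Ω :=
  closure {x : Ω | IsAlgebraic (IntermediateField.adjoin k S) x}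

/-- `S` is topologically-algebraically independent over `k`. -/
def TAIndependent (k : Type u) {Ω : Type w} [Field k] [NormedField Ω] [Algebra k Ω] (S : Set Ω) :
    Prop :=
  ∀ S' : Set Ω, S' ⊂ S → taClosure k S' ⊂ taClosure k S

/-- `S` is topologically-algebraically generating over `k`. -/
def TAGenerating (k : Type u) {Ω : Type w} [Field k] [NormedField Ω] [Algebra k Ω] (S : Set Ω) :
    Prop :=
  taClosure k S = Set.univ

/-- The topological transcendence degree of `K / k`, computed in `Ω`: the supremum of the
cardinalities of the independent subsets of `K`. -/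
noncomputable def topTrDeg (k : Type u) (K : Type v) (Ω : Type w) [Field k] [Field K]
    [NormedField Ω] [Algebra k Ω] [Algebra K Ω] : Cardinal.{v} :=
  ⨆ S : {S : Set K // TAIndependent k (algebraMap K Ω '' S)}, #S.1

/-- The topological generating degree of `K / k`, computed in `Ω`: the minimum of the
cardinalities of the generating subsets of `K`. -/
noncomputable def topGenDeg (k : Type u) (K : Type v) (Ω : Type w) [Field k] [Field K]
    [NormedField Ω] [Algebra k Ω] [Algebra K Ω] : Cardinal.{v} :=
  ⨅ S : {S : Set K // TAGenerating k (algebraMap K Ω '' S)}, #S.1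

end Pool.Agent.MP_769310_ag
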