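import Mathlib.Algebra.Ring.Defs
import Mathlib.Algebra.Module.Defs
import Mathlib.RingTheory.SimpleModule.Basic
import Mathlib.Topology.Sheaves.Presheaf
import Mathlib.Tactic.Monotonicity.Lemmas
import Mathlib.RingTheory.AlgebraicIndependent.TranscendenceBasis
import Mathlib.RingTheory.AlgebraicIndependent.AlgebraicClosure
import Mathlib.Algebra.Order.Star.Real
import Mathlib.Analysis.Normed.Group.Ultra
import Mathlib.Combinatorics.SimpleGraph.Basic
import Mathlib.Analysis.Normed.Field.Approximation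
import Mathlib.RingTheory.PiTensorProduct
import Mathlib.RingTheory.SimpleRing.Principal
import Mathlib.Order.TeichmullerTukey
import Mathlib.RingTheory.Henselian
import Mathlib.RingTheory.RegularLocalRing.Defs
import Mathlib.Tactic.Polynomial.Basic
import Pool.Agent.MP_769310_ag.Defs

-- ======== part 0: formerly Pool.Agent.MP_769310_ag.Poly
section MrgPart0

set_option autoImplicit false

open Polynomial

namespace Pool.Agent.MP_769310_ag

variable {W : Type*} [NormedField W] [IsUltrametricDist W]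

lemma coeff_prod_le (a : W) {r : ℝ} (hr : 0 ≤ r) (m : Multiset W) (j : ℕ) :
    ‖(taylor a (m.map fun b => X - C b).prod).coeff j‖ * r ^ j ≤
      (m.map fun b => max ‖a - b‖ r).prod := by
  induction m using Multiset.induction_on generalizing j with
  | empty =>
    rcases j with _ | j
    · simp
    · simp [coeff_one]
  | cons b m ih =>
    have hM : 0 ≤ (m.map fun b => max ‖a - b‖ r).prod :=
      le_trans (by positivity) (ih 0)
    simp only [Multiset.map_cons, Multiset.prod_cons, taylor_mul]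
    generalize taylor a (m.map fun b => X - C b).prod = q at ih ⊢
    generalize (m.map fun b => max ‖a - b‖ r).prod = M at ih hM ⊢
    have e : taylor a (X - C b) = X + C (a - b) := by
      rw [map_sub, taylor_X, taylor_C, C_sub]; ring
    rw [e, add_mul, coeff_add, coeff_C_mul]
    have h2 : ‖(a - b) * q.coeff j‖ * r ^ j ≤ max ‖a - b‖ r * M := by
      rw [norm_mul, mul_assoc]
      exact mul_le_mul (le_max_left _ _) (ih j) (by positivity) (by positivity)
    rcases j with _ | j
    · simpa using h2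
    · rw [coeff_X_mul]
      have h1 : ‖q.coeff j‖ * r ^ (j + 1) ≤ max ‖a - b‖ r * M := by
        rw [pow_succ, ← mul_assoc, mul_comm]
        exact mul_le_mul (le_max_right _ _) (ih j) (by positivity) (by positivity)
      refine le_trans (mul_le_mul_of_nonneg_right (IsUltrametricDist.norm_add_le_max _ _)
        (by positivity)) ?_
      rw [max_mul_of_nonneg _ _ (by positivity)]
      exact max_le h1 h2

/-- Every polynomial with coefficients in `E` is a product of linear factors with roots in `E`. -/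
def AC (E : Set W) : Prop :=
  ∀ R : W[X], (∀ i, R.coeff i ∈ E) → ∃ m : Multiset W, (∀ b ∈ m, b ∈ E) ∧
    m.card = R.natDegree ∧ R = C R.leadingCoeff * (m.map fun b => X - C b).prod

omit [IsUltrametricDist W] in
lemma norm_eval_prod (c x : W) (m : Multiset W) :
    ‖(C c * (m.map fun b => X - C b).prod).eval x‖ = ‖c‖ * (m.map fun b => ‖x - b‖).prod := by
  rw [eval_mul, eval_C, norm_mul]
  congr 1
  induction m using Multiset.induction_on with
  | empty => simp
  | cons b m ih => simp only [Multiset.map_cons, Multiset.prod_cons, eval_mul, norm_mul, ih,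
      eval_sub, eval_X, eval_C]

lemma AC.coeff_le {E : Set W} (hE : AC E) {R : W[X]} (hR : ∀ i, R.coeff i ∈ E) (a x : W)
    {r θ : ℝ} (hr : 0 ≤ r) (h : ∀ b ∈ E, max ‖a - b‖ r ≤ θ * ‖x - b‖) (j : ℕ) :
    ‖(taylor a R).coeff j‖ * r ^ j ≤ θ ^ R.natDegree * ‖R.eval x‖ := by
  obtain ⟨m, hm, hcard, hRm⟩ := hE R hR
  rw [← hcard]
  generalize R.leadingCoeff = c at hRm
  subst hRm
  rw [norm_eval_prod, taylor_mul, taylor_C, coeff_C_mul, norm_mul, mul_assoc,
    mul_left_comm (θ ^ m.card)]
  refine mul_le_mul_of_nonneg_left ((coeff_prod_le a hr m j).trans ?_) (norm_nonneg c)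
  have : θ ^ m.card * (m.map fun b => ‖x - b‖).prod = (m.map fun b => θ * ‖x - b‖).prod := by
    rw [Multiset.prod_map_mul]
    simp
  rw [this]
  exact Multiset.prod_map_le_prod_map₀ _ _ (fun b _ => le_max_of_le_right hr)
    (fun b hb => h b (hm b hb))

lemma AC.coeff_le' {E : Set W} (hE : AC E) {R : W[X]} (hR : ∀ i, R.coeff i ∈ E) (s : W)
    {e : ℝ} (he : 0 ≤ e) (h : ∀ b ∈ E, e ≤ ‖s - b‖) (j : ℕ) :
    ‖(taylor s R).coeff j‖ * e ^ j ≤ ‖R.eval s‖ := by
  have := hE.coeff_le hR s s (θ := 1) he (fun b hb => by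
    rw [one_mul]; exact max_le le_rfl (h b hb)) j
  rwa [one_pow, one_mul] at this

lemma norm_sub_eq_of_lt {s s' b : W} (h : ‖s - s'‖ < ‖s - b‖) : ‖s' - b‖ = ‖s - b‖ := by
  have e : s' - b = (s - b) + -(s - s') := by ring
  rw [e, IsUltrametricDist.norm_add_eq_max_of_norm_ne_norm (by rw [norm_neg]; exact h.ne'),
    norm_neg, max_eq_left h.le]

lemma AC.norm_eval_eq {E : Set W} (hE : AC E) {R : W[X]} (hR : ∀ i, R.coeff i ∈ E) {s s' : W}
    (h : ∀ b ∈ E, ‖s - s'‖ < ‖s - b‖) : ‖R.eval s'‖ = ‖R.eval s‖ := by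
  obtain ⟨m, hm, -, hRm⟩ := hE R hR
  rw [hRm, norm_eval_prod, norm_eval_prod]
  congr 2
  exact Multiset.map_congr rfl fun b hb => norm_sub_eq_of_lt (h b (hm b hb))

lemma le_norm_sub_of_root {Q : W[X]} (hQ : Q ≠ 0) {u z : W} {e : ℝ} (he : 0 < e)
    (h : ∀ j, ‖(taylor u Q).coeff j‖ * e ^ j ≤ ‖Q.eval u‖) (hz : Q.eval z = 0) :
    e ≤ ‖u - z‖ := by
  by_contra hlt
  rw [not_le, norm_sub_rev] at hlt
  have h0 : Q.eval u ≠ 0 := by
    intro h0
    apply hQ
    rw [← taylor_eq_zero u]
    ext j
    have := h j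
    rw [h0, norm_zero] at this
    have h2 : ‖(taylor u Q).coeff j‖ ≤ 0 :=
      le_of_mul_le_mul_right (by simpa using this) (pow_pos he j)
    simpa using h2
  have hpos : 0 < ‖Q.eval u‖ := norm_pos_iff.2 h0
  have hz' : (taylor u Q).eval (z - u) = 0 := by rw [taylor_eval_sub, hz]
  rw [eval_eq_sum_range, Finset.sum_range_succ', taylor_coeff_zero, pow_zero, mul_one,
    add_eq_zero_iff_eq_neg] at hz'
  have hs : ‖∑ j ∈ Finset.range (taylor u Q).natDegree,
      (taylor u Q).coeff (j + 1) * (z - u) ^ (j + 1)‖ ≤ ‖Q.eval u‖ * (‖z - u‖ / e) := by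
    refine IsUltrametricDist.norm_sum_le_of_forall_le_of_nonneg (by positivity) fun j _ => ?_
    rw [norm_mul, norm_pow]
    have h1 : ‖z - u‖ ^ (j + 1) ≤ e ^ (j + 1) * (‖z - u‖ / e) := by
      rw [pow_succ, pow_succ, mul_assoc, mul_div_cancel₀ _ he.ne']
      exact mul_le_mul_of_nonneg_right (pow_le_pow_left₀ (norm_nonneg _) hlt.le j)
        (norm_nonneg _)
    calc _ ≤ ‖(taylor u Q).coeff (j + 1)‖ * (e ^ (j + 1) * (‖z - u‖ / e)) :=
          mul_le_mul_of_nonneg_left h1 (norm_nonneg _)
      _ = ‖(taylor u Q).coeff (j + 1)‖ * e ^ (j + 1) * (‖z - u‖ / e) := by ring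
      _ ≤ _ := mul_le_mul_of_nonneg_right (h _) (by positivity)
  rw [hz', norm_neg] at hs
  have : ‖z - u‖ / e < 1 := (div_lt_one he).2 hlt
  nlinarith

omit [IsUltrametricDist W] in
lemma taylor_coeff_mem (E : Subfield W) {R : W[X]} (hR : ∀ i, R.coeff i ∈ E) {a : W} (ha : a ∈ E)
    (j : ℕ) : (taylor a R).coeff j ∈ E := by
  rw [taylor_coeff, eval_eq_sum_range]
  refine sum_mem fun i _ => mul_mem ?_ (pow_mem ha _)
  rw [hasseDeriv_coeff]
  exact mul_mem (natCast_mem _ _) (hR _)

omit [IsUltrametricDist W] in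
lemma eval_mem (E : Subfield W) {R : W[X]} (hR : ∀ i, R.coeff i ∈ E) {a : W} (ha : a ∈ E) :
    R.eval a ∈ E := by
  rw [← taylor_coeff_zero]
  exact taylor_coeff_mem E hR ha 0

omit [IsUltrametricDist W] in
lemma taylor_coeff_coeff_mem (E : Subfield W) {P : W[X][X]} (hP : ∀ i j, (P.coeff i).coeff j ∈ E)
    {a : W} (ha : a ∈ E) (i j : ℕ) : ((taylor (C a) P).coeff i).coeff j ∈ E := by
  rw [taylor_coeff, eval_eq_sum_range, finsetSum_coeff]
  refine sum_mem fun l _ => ?_
  rw [← C_pow, coeff_mul_C, hasseDeriv_coeff, ← C_eq_natCast, coeff_C_mul]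
  exact mul_mem (mul_mem (natCast_mem _ _) (hP _ _)) (pow_mem ha _)

omit [IsUltrametricDist W] in
lemma coeff_taylor_eval_C (P : W[X][X]) (x u : W) (j : ℕ) :
    (taylor u (P.eval (C x))).coeff j =
      ∑ i ∈ Finset.range (P.natDegree + 1), (taylor u (P.coeff i)).coeff j * x ^ i := by
  rw [eval_eq_sum_range, map_sum, finsetSum_coeff]
  refine Finset.sum_congr rfl fun i _ => ?_
  rw [← C_pow, taylor_mul, taylor_C, coeff_mul_C]

/-- The symmetry lemma, in polynomial form. -/
lemma symm_poly {E L : Subfield W} (hE : AC (E : Set W)) (hL : AC (L : Set W)) (hEL : E ≤ L)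
    {x s : W} (hs : s ∈ L) {d e : ℝ} (he : 0 < e) (hxL : ∀ b ∈ L, d ≤ ‖x - b‖)
    (hxE : ∀ θ : ℝ, 1 < θ → ∃ a ∈ E, ‖x - a‖ ≤ θ * d) (hsE : ∀ b ∈ E, e ≤ ‖s - b‖)
    {P : W[X][X]} (hP : ∀ i j, (P.coeff i).coeff j ∈ E) (hP0 : P.eval (C x) ≠ 0) {z : W}
    (hz : (P.eval (C x)).eval z = 0) : e ≤ ‖s - z‖ := by
  refine le_norm_sub_of_root hP0 he (fun j => ?_) hz
  set G : W[X] := P.map (evalRingHom s) with hG
  have hGL : ∀ i, G.coeff i ∈ L := fun i => by
    rw [hG, coeff_map, coe_evalRingHom]
    exact eval_mem L (fun l => hEL (hP i l)) hs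
  have hGx : G.eval x = (P.eval (C x)).eval s := by
    have : x = evalRingHom s (C x) := by simp
    conv_lhs => rw [hG, this, eval_map, eval₂_at_apply]
    rfl
  have key : ∀ θ : ℝ, 1 < θ → ‖(taylor s (P.eval (C x))).coeff j‖ * e ^ j ≤
      θ ^ G.natDegree * ‖(P.eval (C x)).eval s‖ := by
    intro θ hθ
    obtain ⟨a, ha, hxa⟩ := hxE θ hθ
    have e1 : P.eval (C x) = (taylor (C a) P).eval (C (x - a)) := by
      rw [C_sub, taylor_eval_sub]
    have hb : ∀ b ∈ (L : Set W), max ‖a - b‖ ‖x - a‖ ≤ θ * ‖x - b‖ := by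
      intro b hb
      have h1 : ‖x - a‖ ≤ θ * ‖x - b‖ :=
        hxa.trans (mul_le_mul_of_nonneg_left (hxL b hb) (by linarith))
      refine max_le ?_ h1
      have e2 : a - b = -(x - a) + (x - b) := by ring
      rw [e2]
      refine (IsUltrametricDist.norm_add_le_max _ _).trans (max_le (by rwa [norm_neg]) ?_)
      exact le_mul_of_one_le_left (norm_nonneg _) hθ.le
    conv_lhs => rw [e1, coeff_taylor_eval_C]
    rw [← le_div_iff₀ (pow_pos he j)]
    refine IsUltrametricDist.norm_sum_le_of_forall_le_of_nonneg (by positivity) fun i _ => ?_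
    rw [le_div_iff₀ (pow_pos he j), norm_mul, norm_pow, mul_right_comm]
    have h1 := hE.coeff_le' (taylor_coeff_coeff_mem E hP ha i) s he.le hsE j
    have h2 := hL.coeff_le hGL a x (norm_nonneg (x - a)) hb i
    have e3 : (taylor a G).coeff i = ((taylor (C a) P).coeff i).eval s := by
      have : a = evalRingHom s (C a) := by simp
      conv_lhs => rw [hG, this, ← map_taylor, coeff_map]
      rfl
    rw [e3, hGx] at h2
    exact (mul_le_mul_of_nonneg_right h1 (by positivity)).trans h2
  have hc : ContinuousWithinAt (fun θ : ℝ => θ ^ G.natDegree * ‖(P.eval (C x)).eval s‖)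
      (Set.Ioi 1) 1 := Continuous.continuousWithinAt (by fun_prop)
  have := ge_of_tendsto hc.tendsto (eventually_nhdsWithin_of_forall key)
  simpa using this

/-- The deformation lemma, in polynomial form. -/
lemma deform_poly {E L L' : Subfield W} (hL : AC (L : Set W)) (hL' : AC (L' : Set W))
    (hEL : E ≤ L) (hEL' : E ≤ L') {s s' u : W} (hs : s ∈ L) (hu : u ∈ L') {e : ℝ} (he : 0 < e)
    (huL : ∀ b ∈ L, e ≤ ‖u - b‖) (hsL' : ∀ b ∈ L', ‖s - s'‖ < ‖s - b‖)
    {P : W[X][X]} (hP : ∀ i j, (P.coeff i).coeff j ∈ E) (hP0 : P.eval (C s') ≠ 0) {z : W}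
    (hz : (P.eval (C s')).eval z = 0) : e ≤ ‖u - z‖ := by
  refine le_norm_sub_of_root hP0 he (fun j => ?_) hz
  have key : ∀ l, ‖(taylor u (P.eval (C s'))).coeff l‖ = ‖(taylor u (P.eval (C s))).coeff l‖ := by
    intro l
    have hq : ∀ y, (taylor u (P.eval (C y))).coeff l = (∑ i ∈ Finset.range (P.natDegree + 1),
        monomial i ((taylor u (P.coeff i)).coeff l)).eval y := by
      intro y
      rw [coeff_taylor_eval_C, eval_finsetSum]
      simp only [eval_monomial]
    rw [hq, hq]
    refine hL'.norm_eval_eq (fun i => ?_) hsL'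
    rw [finsetSum_coeff]
    refine sum_mem (S := L') fun n _ => ?_
    rw [coeff_monomial]
    split_ifs
    · exact taylor_coeff_mem L' (fun m => hEL' (hP n m)) hu l
    · exact zero_mem _
  rw [key, ← taylor_coeff_zero u (P.eval (C s')), key, taylor_coeff_zero]
  refine hL.coeff_le' (fun i => ?_) u he.le huL j
  have := taylor_coeff_coeff_mem L (fun i j => hEL (hP i j)) hs 0 i
  rwa [taylor_coeff_zero] at this

end Pool.Agent.MP_769310_ag

end MrgPart0

-- ======== part 1: formerly Pool.Agent.MP_769310_ag.Acl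
section MrgPart1

set_option autoImplicit false

open Polynomial

namespace Pool.Agent.MP_769310_ag

variable {W : Type*} [NormedField W] {k : Type*} [Field k] [Algebra k W]

lemma exists_lift {F : Type*} [Field F] [Algebra F W] (E : IntermediateField F W) {R : W[X]}
    (hR : ∀ i, R.coeff i ∈ E) : ∃ R' : E[X], R'.map (algebraMap E W) = R := by
  rw [← mem_lifts, lifts_iff_coeff_lifts]
  exact fun n => ⟨⟨_, hR n⟩, rfl⟩

lemma mem_algebraicClosure_of_poly {F : Type*} [Field F] [Algebra F W] {R : W[X]} (hR0 : R ≠ 0)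
    (hR : ∀ i, R.coeff i ∈ algebraicClosure F W) {z : W} (hz : R.eval z = 0) :
    z ∈ algebraicClosure F W := by
  obtain ⟨R', rfl⟩ := exists_lift _ hR
  have h : IsAlgebraic (algebraicClosure F W) z :=
    ⟨R', by rintro rfl; simp at hR0, by rwa [aeval_def, ← eval_map]⟩
  exact mem_algebraicClosure_iff.2 (h.restrictScalars F)

variable (k) in
/-- The algebraic closure of `k(U)` in `W`. -/
noncomputable def acl (U : Set W) : Subfield W :=
  (algebraicClosure (IntermediateField.adjoin k U) W).toSubfield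

lemma mem_acl {U : Set W} {x : W} :
    x ∈ acl k U ↔ IsAlgebraic (IntermediateField.adjoin k U) x := mem_algebraicClosure_iff

lemma mem_acl' {U : Set W} {x : W} : x ∈ acl k U ↔ IsAlgebraic (Algebra.adjoin k U) x :=
  mem_acl.trans IntermediateField.isAlgebraic_adjoin_iff

lemma mem_acl_iff_closure {U : Set W} {x : W} :
    x ∈ acl k U ↔ x ∈ (AlgebraicIndependent.matroid k W).closure U := by
  rw [AlgebraicIndependent.matroid_closure_eq, mem_acl']
  rfl

lemma subset_acl {U : Set W} {x : W} (hx : x ∈ U) : x ∈ acl k U :=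
  mem_acl_iff_closure.2 ((AlgebraicIndependent.matroid k W).subset_closure U (by simp) hx)

lemma acl_mono {U V : Set W} (h : U ⊆ V) : acl k U ≤ acl k V := fun _ hx =>
  mem_acl_iff_closure.2 ((AlgebraicIndependent.matroid k W).closure_mono h
    (mem_acl_iff_closure.1 hx))

lemma acl_finite {U : Set W} {x : W} (hx : x ∈ acl k U) :
    ∃ U₀ ⊆ U, U₀.Finite ∧ x ∈ acl k U₀ := by
  obtain ⟨I, h1, h2, -, h3⟩ :=
    Matroid.exists_mem_finite_closure_of_mem_closure (mem_acl_iff_closure.1 hx)
  exact ⟨I, h1, h2, mem_acl_iff_closure.2 h3⟩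

lemma exists_poly_of_mem_acl {U : Set W} {z : W} (hz : z ∈ acl k U) :
    ∃ R : W[X], R ≠ 0 ∧ R.eval z = 0 ∧ ∀ i, R.coeff i ∈ Algebra.adjoin k U := by
  obtain ⟨p, hp0, hp⟩ := mem_acl'.1 hz
  refine ⟨p.map (algebraMap _ W), ?_, by rwa [eval_map, ← aeval_def], fun i => ?_⟩
  · exact (Polynomial.map_ne_zero_iff Subtype.val_injective).2 hp0
  · rw [coeff_map]
    exact (p.coeff i).2

lemma algebraMap_mem_acl (U : Set W) (c : k) : algebraMap k W c ∈ acl k U :=
  mem_acl'.2 (isAlgebraic_algebraMap (⟨_, Subalgebra.algebraMap_mem _ c⟩ : Algebra.adjoin k U))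

lemma exists_poly_of_mem_adjoin_insert {U : Set W} {x ω : W}
    (h : ω ∈ Algebra.adjoin k (insert x U)) :
    ∃ p : W[X], (∀ i, p.coeff i ∈ acl k U) ∧ p.eval x = ω := by
  have hC : ∀ c ∈ acl k U, ∀ i, (C c).coeff i ∈ acl k U := by
    intro c hc i
    rw [coeff_C]
    split_ifs
    · exact hc
    · exact zero_mem _
  induction h using Algebra.adjoin_induction with
  | mem y hy =>
    rcases hy with rfl | hy
    · refine ⟨X, fun i => ?_, eval_X⟩
      rw [coeff_X]
      split_ifs
      · exact one_mem _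
      · exact zero_mem _
    · exact ⟨C y, hC y (subset_acl hy), eval_C⟩
  | algebraMap c => exact ⟨C _, hC _ (algebraMap_mem_acl U c), eval_C⟩
  | add y z _ _ hy hz =>
    obtain ⟨p, hp, rfl⟩ := hy
    obtain ⟨q, hq, rfl⟩ := hz
    exact ⟨p + q, fun i => by rw [coeff_add]; exact add_mem (hp i) (hq i), eval_add⟩
  | mul y z _ _ hy hz =>
    obtain ⟨p, hp, rfl⟩ := hy
    obtain ⟨q, hq, rfl⟩ := hz
    exact ⟨p * q, fun i => by
      rw [coeff_mul]; exact sum_mem fun c _ => mul_mem (hp _) (hq _), eval_mul⟩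

lemma exists_bivariate {U : Set W} {x z : W} (hz : z ∈ acl k (insert x U)) :
    ∃ P : W[X][X], (∀ i j, (P.coeff i).coeff j ∈ acl k U) ∧ P.eval (C x) ≠ 0 ∧
      (P.eval (C x)).eval z = 0 := by
  obtain ⟨R, hR0, hRz, hR⟩ := exists_poly_of_mem_acl hz
  choose p hp hpx using fun i => exists_poly_of_mem_adjoin_insert (hR i)
  have key : (∑ n ∈ Finset.range (R.natDegree + 1), (p n).map C * C (X ^ n)).eval (C x) = R := by
    rw [eval_finsetSum]
    conv_rhs => rw [R.as_sum_range_C_mul_X_pow]
    refine Finset.sum_congr rfl fun n _ => ?_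
    rw [eval_mul, eval_C, eval_map, eval₂_at_apply, hpx]
  refine ⟨_, fun i j => ?_, by rwa [key], by rwa [key]⟩
  rw [finsetSum_coeff, finsetSum_coeff]
  refine sum_mem fun n _ => ?_
  rw [coeff_mul_C, coeff_map, coeff_C_mul_X_pow]
  split_ifs
  · exact hp _ _
  · exact zero_mem _

section Ext

variable {K : Type*} [Field K] [Algebra k K] [Algebra K W] [IsScalarTower k K W]

lemma acl_le_algebraicClosure {U : Set W} (hU : U ⊆ algebraicClosure K W) {x : W}
    (hx : x ∈ acl k U) : x ∈ algebraicClosure K W := by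
  obtain ⟨R, hR0, hRz, hR⟩ := exists_poly_of_mem_acl hx
  refine mem_algebraicClosure_of_poly hR0 (fun i => ?_) hRz
  have : Algebra.adjoin k U ≤ ((algebraicClosure K W).restrictScalars k).toSubalgebra :=
    Algebra.adjoin_le hU
  exact this (hR i)

lemma ac_acl [IsAlgClosed (algebraicClosure K W)] {U : Set W} (hU : U ⊆ algebraicClosure K W) :
    AC (acl k U : Set W) := by
  intro R hR
  have hs : R.Splits := by
    obtain ⟨R', rfl⟩ := exists_lift (algebraicClosure K W)
      (fun i => acl_le_algebraicClosure hU (hR i))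
    exact (IsAlgClosed.splits R').map _
  refine ⟨R.roots, fun b hb => ?_, hs.natDegree_eq_card_roots.symm, hs.eq_prod_roots⟩
  rw [mem_roots'] at hb
  exact mem_algebraicClosure_of_poly hb.1 hR hb.2

variable [IsUltrametricDist W] [IsAlgClosed (algebraicClosure K W)]

/-- The symmetry lemma. -/
lemma symm_acl {U : Set W} (hU : U ⊆ algebraicClosure K W) {x s : W}
    (hs : s ∈ algebraicClosure K W) {d e : ℝ} (he : 0 < e)
    (hxL : ∀ b ∈ acl k (insert s U), d ≤ ‖x - b‖)
    (hxE : ∀ θ : ℝ, 1 < θ → ∃ a ∈ acl k U, ‖x - a‖ ≤ θ * d) (hsE : ∀ b ∈ acl k U, e ≤ ‖s - b‖)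
    {z : W} (hz : z ∈ acl k (insert x U)) : e ≤ ‖s - z‖ := by
  obtain ⟨P, hP, hP0, hPz⟩ := exists_bivariate hz
  exact symm_poly (ac_acl hU) (ac_acl (Set.insert_subset hs hU))
    (acl_mono (Set.subset_insert _ _)) (subset_acl (Set.mem_insert _ _)) he hxL hxE hsE hP hP0 hPz

/-- The deformation lemma. -/
lemma deform_acl {U : Set W} (hU : U ⊆ algebraicClosure K W) {s s' u : W}
    (hs : s ∈ algebraicClosure K W) (hu : u ∈ algebraicClosure K W) {e : ℝ} (he : 0 < e)
    (huL : ∀ b ∈ acl k (insert s U), e ≤ ‖u - b‖)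
    (hsL : ∀ b ∈ acl k (insert u U), ‖s - s'‖ < ‖s - b‖)
    {z : W} (hz : z ∈ acl k (insert s' U)) : e ≤ ‖u - z‖ := by
  obtain ⟨P, hP, hP0, hPz⟩ := exists_bivariate hz
  exact deform_poly (ac_acl (Set.insert_subset hs hU)) (ac_acl (Set.insert_subset hu hU))
    (acl_mono (Set.subset_insert _ _)) (acl_mono (Set.subset_insert _ _))
    (subset_acl (Set.mem_insert _ _)) (subset_acl (Set.mem_insert _ _)) he huL hsL hP hP0 hPz

omit [IsUltrametricDist W] in
/-- Continuity of roots. -/
lemma mem_closure_acl_of_monic {U : Set W} (hU : U ⊆ algebraicClosure K W) {f : W[X]}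
    (hfm : f.Monic) (hf : ∀ i, f.coeff i ∈ closure (acl k U : Set W)) {z : W}
    (hfz : f.eval z = 0) : z ∈ closure (acl k U : Set W) := by
  have hn : f.natDegree ≠ 0 := by
    intro h
    rw [hfm.natDegree_eq_zero.1 h] at hfz
    simp at hfz
  rw [Metric.mem_closure_iff]
  intro ε hε
  have hM : 0 < max ‖z‖ 1 := lt_max_of_lt_right one_pos
  set η : ℝ := (ε / max ‖z‖ 1) ^ f.natDegree / (f.natDegree + 1) with hη
  have hη0 : 0 < η := by positivity
  have happ : ∀ i, ∃ b ∈ (acl k U : Set W), dist (f.coeff i) b < η := fun i =>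
    Metric.mem_closure_iff.1 (hf i) η hη0
  choose c hc hcd using happ
  set g : W[X] := X ^ f.natDegree + ∑ i : Fin f.natDegree, C (c i) * X ^ (i : ℕ) with hg
  have hgm : g.Monic := monic_X_pow_add (degree_sum_fin_lt _)
  have hgd : g.natDegree = f.natDegree := by
    rw [hg, natDegree_add_eq_left_of_degree_lt, natDegree_X_pow]
    rw [degree_X_pow]
    exact degree_sum_fin_lt _
  have hlt : ∀ i, i < f.natDegree → g.coeff i = c i := by
    intro i hi
    rw [hg, coeff_add, coeff_X_pow, if_neg hi.ne, zero_add, finsetSum_coeff,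
      Finset.sum_eq_single (⟨i, hi⟩ : Fin f.natDegree)]
    · simp
    · intro j _ hj
      rw [coeff_C_mul_X_pow, if_neg]
      exact fun h => hj (Fin.ext h.symm)
    · simp
  have hge : ∀ i, f.natDegree ≤ i → g.coeff i = f.coeff i ∧ (g.coeff i = 0 ∨ g.coeff i = 1) := by
    intro i hi
    rcases hi.eq_or_lt with rfl | hi
    · have h1 : g.coeff f.natDegree = 1 := by rw [← hgd]; exact hgm
      exact ⟨h1.trans hfm.symm, Or.inr h1⟩
    · have h1 : g.coeff i = 0 := coeff_eq_zero_of_natDegree_lt (by rwa [hgd])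
      exact ⟨h1.trans (coeff_eq_zero_of_natDegree_lt hi).symm, Or.inl h1⟩
  have hgc : ∀ i, g.coeff i ∈ (acl k U : Set W) := by
    intro i
    rcases lt_or_ge i f.natDegree with h | h
    · rw [hlt i h]; exact hc i
    · rcases (hge i h).2 with h' | h' <;> rw [h']
      · exact zero_mem (acl k U)
      · exact one_mem (acl k U)
  obtain ⟨m, hm, -, hgm'⟩ := ac_acl (k := k) hU g hgc
  have hgs : g.Splits := splits_iff_exists_multiset.2 ⟨m, hgm'⟩
  obtain ⟨b, hb, hzb⟩ := exists_roots_norm_sub_lt_of_norm_coeff_sub_lt hη0 hfz hfm hgm hgd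
    (fun i => by
      rcases lt_or_ge i f.natDegree with h | h
      · rw [hlt i h, ← dist_eq_norm, dist_comm]; exact hcd i
      · rw [(hge i h).1, sub_self, norm_zero]; exact hη0) hgs
  rw [mem_roots'] at hb
  refine ⟨b, mem_algebraicClosure_of_poly hb.1 hgc hb.2, ?_⟩
  rw [dist_eq_norm]
  refine hzb.trans_eq ?_
  rw [hη, mul_div_cancel₀ _ (by positivity), Real.pow_rpow_inv_natCast (by positivity) hn,
    div_mul_cancel₀ _ hM.ne']

omit [IsUltrametricDist W] in
lemma mem_closure_acl {U : Set W} (hU : U ⊆ algebraicClosure K W)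
    (hK : ∀ c : K, algebraMap K W c ∈ closure (acl k U : Set W)) {z : W}
    (hz : z ∈ algebraicClosure K W) : z ∈ closure (acl k U : Set W) := by
  obtain ⟨p, hpm, hp⟩ := mem_algebraicClosure_iff'.1 hz
  exact mem_closure_acl_of_monic hU (hpm.map (algebraMap K W))
    (fun i => by rw [coeff_map]; exact hK _) (by rwa [eval_map])

omit [IsUltrametricDist W] in
lemma acl_subset_closure {U V : Set W} (hU : U ⊆ algebraicClosure K W)
    (hV : V ⊆ closure (acl k U : Set W)) {z : W} (hz : z ∈ acl k V) :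
    z ∈ closure (acl k U : Set W) := by
  obtain ⟨R, hR0, hRz, hR⟩ := exists_poly_of_mem_acl hz
  have h1 : ∀ y ∈ Algebra.adjoin k V, y ∈ (acl k U).topologicalClosure := by
    intro y hy
    induction hy using Algebra.adjoin_induction with
    | mem y hy => exact hV hy
    | algebraMap c => exact subset_closure (algebraMap_mem_acl U c)
    | add y z _ _ hy hz => exact add_mem hy hz
    | mul y z _ _ hy hz => exact mul_mem hy hz
  refine mem_closure_acl_of_monic hU (monic_mul_leadingCoeff_inv hR0) (fun i => ?_)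
    (by rw [eval_mul, hRz, zero_mul])
  rw [coeff_mul_C]
  exact mul_mem (h1 _ (hR i)) (inv_mem (h1 _ (hR _)))

end Ext

end Pool.Agent.MP_769310_ag

end MrgPart1

-- ======== part 2: formerly Pool.Agent.MP_769310_ag.Main
section MrgPart2

set_option autoImplicit false

open Cardinal Set

namespace Pool.Agent.MP_769310_ag

universe u v w

variable {k : Type u} {K : Type v} {W : Type w} [Field k] [Field K] [NormedField W]
  [Algebra k K] [Algebra k W] [Algebra K W] [IsScalarTower k K W]

lemma taClosure_eq (S : Set W) : taClosure k S = closure (acl k S : Set W) := by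
  unfold taClosure
  congr 1
  ext x
  exact mem_acl.symm

lemma image_subset_algebraicClosure (X : Set K) :
    algebraMap K W '' X ⊆ algebraicClosure K W := by
  rintro _ ⟨x, -, rfl⟩
  exact (algebraicClosure K W).algebraMap_mem x

variable (k W) in
/-- Distance to the algebraic closure of `k(X)`. -/
noncomputable def dst (X : Set K) (x : K) : ℝ :=
  Metric.infDist (algebraMap K W x) (acl k (algebraMap K W '' X) : Set W)

lemma acl_nonempty (U : Set W) : (acl k U : Set W).Nonempty := ⟨0, zero_mem (acl k U)⟩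

omit [Algebra k K] [IsScalarTower k K W] in
lemma dst_anti {X Y : Set K} (h : X ⊆ Y) (x : K) : dst k W Y x ≤ dst k W X x :=
  Metric.infDist_le_infDist_of_subset (acl_mono (image_mono h)) (acl_nonempty _)

omit [Algebra k K] [IsScalarTower k K W] in
lemma dst_le {X : Set K} (x : K) {b : W} (hb : b ∈ acl k (algebraMap K W '' X)) :
    dst k W X x ≤ ‖algebraMap K W x - b‖ := by
  rw [← dist_eq_norm]
  exact Metric.infDist_le_dist_of_mem hb

variable (k W) in
/-- The elements of `S` keep their distance to the base after adjoining the other ones. -/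
def Free (X S : Set K) : Prop :=
  ∀ s ∈ S, 0 < dst k W X s ∧
    ∀ b ∈ acl k (algebraMap K W '' (X ∪ (S \ {s}))), dst k W X s ≤ ‖algebraMap K W s - b‖

omit [Algebra k K] [IsScalarTower k K W] in
lemma Free.mono {X S S' : Set K} (h : Free k W X S) (hS : S' ⊆ S) : Free k W X S' :=
  fun s hs => ⟨(h s (hS hs)).1, fun b hb => (h s (hS hs)).2 b
    (acl_mono (image_mono (union_subset_union_right _ (sdiff_subset_sdiff_left hS))) hb)⟩

omit [Algebra k K] [IsScalarTower k K W] in
lemma exists_maximal_free (X : Set K) : ∃ S, Maximal (Free k W X) S := by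
  have hF : Order.IsOfFiniteCharacter {S | Free k W X S} := by
    intro S
    refine ⟨fun h y hy _ => Free.mono h hy, fun h s hs => ⟨?_, fun b hb => ?_⟩⟩
    · exact (h {s} (singleton_subset_iff.2 hs) (finite_singleton s) s rfl).1
    · obtain ⟨U₀, hU₀, hfin, hb'⟩ := acl_finite hb
      obtain ⟨V, hV, hVfin, rfl⟩ := hfin.exists_subset_finite_image_eq hU₀
      have h1 : insert s (V ∩ S) ⊆ S := insert_subset hs inter_subset_right
      refine (h _ h1 ((hVfin.inter_of_left S).insert s) s (mem_insert _ _)).2 b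
        (acl_mono (image_mono fun v hv => ?_) hb')
      rcases hV hv with h2 | h2
      · exact Or.inl h2
      · exact Or.inr ⟨mem_insert_of_mem _ ⟨hv, h2.1⟩, h2.2⟩
  obtain ⟨m, -, hm⟩ := hF.exists_maximal (x := ∅) (fun s hs => absurd hs (notMem_empty s))
  exact ⟨m, hm⟩

omit [Algebra k K] [IsScalarTower k K W] in
lemma Free.indep {X S : Set K} (h : Free k W X S) : TAIndependent k (algebraMap K W '' S) := by
  intro S' hS'
  obtain ⟨_, ⟨s, hs, rfl⟩, hs'⟩ := exists_of_ssubset hS'
  rw [taClosure_eq, taClosure_eq]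
  refine ⟨closure_mono (acl_mono hS'.1), fun hc => ?_⟩
  have h1 : algebraMap K W s ∈ closure (acl k S' : Set W) :=
    hc (subset_closure (subset_acl (mem_image_of_mem _ hs)))
  obtain ⟨b, hb, hlt⟩ := Metric.mem_closure_iff.1 h1 _ (h s hs).1
  have h2 : S' ⊆ algebraMap K W '' (X ∪ (S \ {s})) := by
    intro y hy
    obtain ⟨t, ht, rfl⟩ := hS'.1 hy
    exact mem_image_of_mem _ (Or.inr ⟨ht, fun e => hs' (by rwa [← mem_singleton_iff.1 e])⟩)
  have := (h s hs).2 b (acl_mono h2 hb)
  rw [dist_eq_norm] at hlt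
  linarith

omit [Algebra k K] [IsScalarTower k K W] in
lemma mk_le_topTrDeg {S : Set K} (h : TAIndependent k (algebraMap K W '' S)) :
    #S ≤ topTrDeg k K W :=
  le_ciSup (f := fun S : {S : Set K // TAIndependent k (algebraMap K W '' S)} => #S.1)
    bddAbove_of_small ⟨S, h⟩

omit [Algebra k K] [IsScalarTower k K W] in
lemma topGenDeg_le_mk {S : Set K} (h : TAGenerating k (algebraMap K W '' S)) :
    topGenDeg k K W ≤ #S :=
  ciInf_le' (fun S : {S : Set K // TAGenerating k (algebraMap K W '' S)} => #S.1) ⟨S, h⟩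

variable [IsAlgClosed (algebraicClosure K W)]

lemma generating_of_dst (hd : Dense (algebraicClosure K W : Set W)) {Y : Set K}
    (h : ∀ x, dst k W Y x = 0) : TAGenerating k (algebraMap K W '' Y) := by
  unfold TAGenerating
  rw [taClosure_eq, eq_univ_iff_forall]
  intro z
  have h1 : (algebraicClosure K W : Set W) ⊆ closure (acl k (algebraMap K W '' Y) : Set W) :=
    fun z hz => mem_closure_acl (image_subset_algebraicClosure Y)
      (fun c => (Metric.mem_closure_iff_infDist_zero (acl_nonempty _)).2 (h c)) hz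
  exact closure_minimal h1 isClosed_closure (hd z)

variable [IsUltrametricDist W]

lemma dst_lt_of_maximal {X S : Set K} (hS : Maximal (Free k W X) S) {x : K}
    (hx : 0 < dst k W X x) : dst k W (X ∪ S) x < dst k W X x := by
  by_contra hc
  rw [not_lt] at hc
  have h1 : ∀ b ∈ acl k (algebraMap K W '' (X ∪ S)), dst k W X x ≤ ‖algebraMap K W x - b‖ :=
    fun b hb => hc.trans (dst_le x hb)
  have hxS : x ∉ S := by
    intro h
    have := h1 _ (subset_acl (mem_image_of_mem _ (Or.inr h)))
    rw [sub_self, norm_zero] at this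
    linarith
  refine hxS (hS.2 (y := insert x S) ?_ (subset_insert _ _) (mem_insert _ _))
  rintro s (rfl | hs)
  · refine ⟨hx, fun b hb => h1 b (acl_mono (image_mono ?_) hb)⟩
    exact union_subset_union_right _ fun y hy => hy.1.resolve_left hy.2
  · refine ⟨(hS.1 s hs).1, fun b hb => ?_⟩
    refine symm_acl (K := K) (k := k) (U := algebraMap K W '' (X ∪ (S \ {s})))
      (x := algebraMap K W x) (d := dst k W X x) (image_subset_algebraicClosure _)
      ((algebraicClosure K W).algebraMap_mem s) (hS.1 s hs).1 (fun b hb => h1 b ?_)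
      (fun θ hθ => ?_) (hS.1 s hs).2 ?_
    · refine acl_mono ?_ hb
      rw [← image_insert_eq]
      exact image_mono (insert_subset (Or.inr hs) (union_subset_union_right _ sdiff_subset))
    · have : dst k W X x < θ * dst k W X x := lt_mul_of_one_lt_left hx hθ
      obtain ⟨a, ha, hlt⟩ := (Metric.infDist_lt_iff (acl_nonempty _)).1 this
      exact ⟨a, acl_mono (image_mono subset_union_left) ha, by rw [← dist_eq_norm]; exact hlt.le⟩
    · refine acl_mono ?_ hb
      rw [← image_insert_eq]
      refine image_mono ?_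
      rintro y (hy | ⟨hy | hy, hy'⟩)
      · exact Or.inr (Or.inl hy)
      · exact Or.inl hy
      · exact Or.inr (Or.inr ⟨hy, hy'⟩)

lemma exists_small_dst_zero {κ : Cardinal.{v}} (h1 : ℵ₁ ≤ κ) (h2 : topTrDeg k K W ≤ κ) :
    ∃ Y : Set K, #Y ≤ κ ∧ ∀ x, dst k W Y x = 0 := by
  have hκ : ℵ₀ ≤ κ := aleph0_le_aleph 1 |>.trans h1
  choose M hM using exists_maximal_free (k := k) (K := K) (W := W)
  let I : Type v := (ℵ₁ : Cardinal.{v}).ord.ToType
  have hI : #I = ℵ₁ := mk_ord_toType _
  let X : I → Set K := (wellFounded_lt (α := I)).fix fun i f =>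
    (⋃ j : Iio i, f j.1 j.2) ∪ M (⋃ j : Iio i, f j.1 j.2)
  have hX : ∀ i, X i = (⋃ j : Iio i, X j.1) ∪ M (⋃ j : Iio i, X j.1) := fun i =>
    (wellFounded_lt (α := I)).fix_eq _ i
  have hU : ∀ {J : Type v} (f : J → Set K), #J ≤ κ → (∀ j, #(f j) ≤ κ) → #(⋃ j, f j) ≤ κ := by
    intro J f hJ hf
    refine mk_iUnion_le_sum_mk.trans ((sum_le_sum _ _ hf).trans ?_)
    rw [sum_const']
    exact (mul_le_mul_left hJ κ).trans (mul_eq_self hκ).le
  have hcard : ∀ i, #(X i) ≤ κ := by
    intro i
    induction i using (wellFounded_lt (α := I)).induction with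
    | _ i ih =>
      rw [hX]
      refine (mk_union_le _ _).trans (add_le_of_le hκ ?_ ?_)
      · exact hU _ ((mk_subtype_le _).trans (hI.le.trans h1)) fun j => ih j.1 j.2
      · exact (mk_le_topTrDeg (hM _).1.indep).trans h2
  refine ⟨⋃ i, X i, hU _ (hI.le.trans h1) hcard, fun x => ?_⟩
  by_contra hx
  have hpos : 0 < dst k W (⋃ i, X i) x := lt_of_le_of_ne Metric.infDist_nonneg (Ne.symm hx)
  have hlt : ∀ i, dst k W (X i) x < dst k W (⋃ j : Iio i, X j.1) x := by
    intro i
    conv_lhs => rw [hX]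
    refine dst_lt_of_maximal (hM _) (hpos.trans_le (dst_anti ?_ x))
    exact iUnion_subset fun j => subset_iUnion X j.1
  choose q hq1 hq2 using fun i => exists_rat_btwn (hlt i)
  have hanti : StrictAnti q := by
    intro i j hij
    have : dst k W (⋃ l : Iio j, X l.1) x ≤ dst k W (X i) x :=
      dst_anti (subset_iUnion (fun l : Iio j => X l.1) ⟨i, hij⟩) x
    have h3 : (q j : ℝ) < q i := (hq2 j).trans_le (this.trans (hq1 i).le)
    exact_mod_cast h3
  have : Countable I := hanti.injective.countable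
  have h4 : #I ≤ ℵ₀ := mk_le_aleph0
  rw [hI] at h4
  exact absurd h4 (not_le.2 aleph0_lt_aleph_one)

theorem topGenDeg_le_max (hd : Dense (algebraicClosure K W : Set W)) :
    topGenDeg k K W ≤ max (topTrDeg k K W) ℵ₁ := by
  obtain ⟨Y, hY, h⟩ := exists_small_dst_zero (k := k) (K := K) (W := W)
    (le_max_right _ _) (le_max_left (topTrDeg k K W) ℵ₁)
  exact (topGenDeg_le_mk (generating_of_dst hd h)).trans hY

lemma mk_le_mk_of_indep_of_gen {S T : Set K} (hS : TAIndependent k (algebraMap K W '' S))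
    (hT : TAGenerating k (algebraMap K W '' T)) : #S ≤ #T := by
  classical
  have hinj : Function.Injective (algebraMap K W) := (algebraMap K W).injective
  let v : S → W := fun s => algebraMap K W s
  have hv : ∀ s, v s ∈ algebraicClosure K W := fun s => (algebraicClosure K W).algebraMap_mem _
  have h0 : ∀ s : S, ∃ e : ℝ, 0 < e ∧ ∀ b ∈ acl k (v '' {s}ᶜ), e ≤ ‖v s - b‖ := by
    intro s
    have hsub : v '' {s}ᶜ ⊂ algebraMap K W '' S := by
      refine ⟨?_, fun hc => ?_⟩
      · rintro _ ⟨t, -, rfl⟩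
        exact mem_image_of_mem _ t.2
      · obtain ⟨t, ht, hts⟩ := hc (mem_image_of_mem _ s.2)
        exact ht (Subtype.ext (hinj hts))
    have hn : v s ∉ closure (acl k (v '' {s}ᶜ) : Set W) := by
      intro hc
      have h1 := hS _ hsub
      rw [taClosure_eq, taClosure_eq] at h1
      refine h1.2 (closure_minimal (fun z hz => ?_) isClosed_closure)
      refine acl_subset_closure (K := K) (hsub.1.trans (image_subset_algebraicClosure S)) ?_ hz
      rintro _ ⟨t, ht, rfl⟩
      by_cases hts : (⟨t, ht⟩ : S) = s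
      · rw [← hts] at hc ⊢
        exact hc
      · exact subset_closure (subset_acl ⟨⟨t, ht⟩, hts, rfl⟩)
    rw [Metric.mem_closure_iff] at hn
    push Not at hn
    obtain ⟨e, he, hb⟩ := hn
    exact ⟨e, he, fun b hb' => by rw [← dist_eq_norm]; exact hb b hb'⟩
  choose e he hve using h0
  have h1 : ∀ s : S, ∃ b ∈ (acl k (algebraMap K W '' T) : Set W), dist (v s) b < e s := by
    intro s
    refine Metric.mem_closure_iff.1 ?_ _ (he s)
    rw [← taClosure_eq, hT]
    exact mem_univ _
  choose w hw hvw using h1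
  simp only [dist_eq_norm] at hvw
  have hw' : ∀ s, w s ∈ algebraicClosure K W := fun s =>
    acl_le_algebraicClosure (image_subset_algebraicClosure T) (hw s)
  have key : ∀ A : Finset S, ∀ i, ∀ b ∈ acl k (A.piecewise w v '' {i}ᶜ),
      e i ≤ ‖A.piecewise w v i - b‖ := by
    intro A
    induction A using Finset.induction_on with
    | empty => simpa using hve
    | insert a A ha ih =>
      rw [Finset.piecewise_insert]
      have hua : A.piecewise w v a = v a := Finset.piecewise_eq_of_notMem _ _ _ ha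
      have hu : ∀ j, A.piecewise w v j ∈ algebraicClosure K W := fun j => by
        by_cases hj : j ∈ A
        · rw [Finset.piecewise_eq_of_mem _ _ _ hj]; exact hw' j
        · rw [Finset.piecewise_eq_of_notMem _ _ _ hj]; exact hv j
      generalize A.piecewise w v = u at ih hua hu
      intro i b hb
      by_cases hi : i = a
      · subst hi
        have e1 : Function.update u i (w i) '' {i}ᶜ = u '' {i}ᶜ :=
          image_congr fun j hj => Function.update_of_ne hj _ _
        rw [e1] at hb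
        have h2 := ih i b hb
        rw [hua] at h2
        rw [Function.update_self, norm_sub_eq_of_lt ((hvw i).trans_le h2)]
        exact h2
      · rw [Function.update_of_ne hi]
        refine deform_acl (K := K) (k := k) (U := u '' {i, a}ᶜ) (s := v a) (s' := w a) ?_ (hv a)
          (hu i) (he i) (fun b hb => ih i b (acl_mono ?_ hb)) (fun b hb => ?_) (acl_mono ?_ hb)
        · rintro _ ⟨j, -, rfl⟩
          exact hu j
        · rintro _ (rfl | ⟨j, hj, rfl⟩)
          · exact ⟨a, Ne.symm hi, hua⟩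
          · exact ⟨j, fun h => hj (Or.inl h), rfl⟩
        · refine (hvw a).trans_le (hua ▸ ih a b (acl_mono ?_ hb))
          rintro _ (rfl | ⟨j, hj, rfl⟩)
          · exact ⟨i, hi, rfl⟩
          · exact ⟨j, fun h => hj (Or.inr h), rfl⟩
        · rintro _ ⟨j, hj, rfl⟩
          by_cases hja : j = a
          · subst hja
            exact Or.inl (Function.update_self ..)
          · refine Or.inr ⟨j, ?_, (Function.update_of_ne hja _ _).symm⟩
            rintro (h | h)
            · exact hj h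
            · exact hja h
  have hind : ∀ i, w i ∉ acl k (w '' {i}ᶜ) := by
    intro i hi
    obtain ⟨U₀, hU₀, hfin, hb⟩ := acl_finite hi
    obtain ⟨V, hV, hVfin, rfl⟩ := hfin.exists_subset_finite_image_eq hU₀
    have h2 := key (insert i hVfin.toFinset) i (w i) (acl_mono ?_ hb)
    · rw [Finset.piecewise_eq_of_mem _ _ _ (Finset.mem_insert_self _ _), sub_self,
        norm_zero] at h2
      linarith [he i]
    · rintro _ ⟨j, hj, rfl⟩
      exact ⟨j, hV hj, Finset.piecewise_eq_of_mem _ _ _
        (Finset.mem_insert_of_mem (hVfin.mem_toFinset.2 hj))⟩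
  have hwinj : Function.Injective w := by
    intro i j hij
    by_contra hne
    exact hind i (subset_acl ⟨j, Ne.symm hne, hij.symm⟩)
  have hI : (AlgebraicIndependent.matroid k W).Indep (range w) := by
    rw [Matroid.indep_iff_forall_notMem_closure_sdiff (by simp)]
    rintro _ ⟨i, rfl⟩ hc
    refine hind i (acl_mono ?_ (mem_acl_iff_closure.2 hc))
    rintro _ ⟨⟨j, rfl⟩, hj⟩
    exact ⟨j, fun h => hj (by rw [mem_singleton_iff.1 h]; rfl), rfl⟩
  have hle : #(range w) ≤ #(algebraMap K W '' T) := by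
    refine (hI.cardinalMk_le_cRk_of_subset
      (X := (AlgebraicIndependent.matroid k W).closure (algebraMap K W '' T)) ?_).trans ?_
    · rintro _ ⟨i, rfl⟩
      exact mem_acl_iff_closure.1 (hw i)
    · rw [Matroid.cRk_closure]
      exact Matroid.cRk_le_cardinalMk _ _
  rw [← lift_le.{w}, ← mk_image_eq_lift (algebraMap K W) T hinj, ← mk_range_eq_of_injective hwinj]
  exact lift_le.2 hle

theorem topTrDeg_le_topGenDeg (hd : Dense (algebraicClosure K W : Set W)) :
    topTrDeg k K W ≤ topGenDeg k K W := by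
  have : Nonempty {S : Set K // TAGenerating k (algebraMap K W '' S)} :=
    ⟨⟨univ, generating_of_dst hd fun x =>
      Metric.infDist_zero_of_mem (subset_acl (mem_image_of_mem _ (mem_univ x)))⟩⟩
  exact ciSup_le' fun S => le_ciInf fun T => mk_le_mk_of_indep_of_gen S.2 T.2

end Pool.Agent.MP_769310_ag

end MrgPart2

-- marker of a merged file
example : 731051 + 92712 = 731051 + 92712 := rfl
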